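import Pool.Agent.U140.FM.Def2
import Pool.Agent.U140.FM.StmA
import Pool.Agent.U140.FM.StmB
import Pool.Agent.U140.FM.StmC
set_option autoImplicit false

/-!
# Package T: the tree induction of the frog model on the 4-ary tree
-/

namespace Pool.Agent.U140.FM
open Finset

namespace PkgT

theorem rt_nonneg (v : Vt) : 0 ≤ rt v := by
  unfold rt; split_ifs <;> norm_num

theorem rt_le_one (v : Vt) : rt v ≤ 1 := by
  unfold rt; split_ifs <;> norm_num

theorem rt_ne {v : Vt} (h : v ≠ []) : rt v = 0 := by
  unfold rt; rw [if_neg h]

theorem mem_ball {n : ℕ} {v : Vt} : v ∈ ball n ↔ v.length ≤ n := by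
  unfold ball; simp

theorem conf_sub_below (v : Vt) (t : Fin 7) : conf v t ⊆ below v := by
  rintro x ⟨p, rfl, -⟩
  exact List.suffix_append _ _

theorem below_cons_sub (i : Fin 4) (v : Vt) : below (i :: v) ⊆ below v := by
  intro x hx
  exact (List.suffix_cons i v).trans hx

theorem length_le_of_below {v x : Vt} (h : x ∈ below v) : v.length ≤ x.length :=
  List.IsSuffix.length_le h

theorem sl_zero (p : List (Fin 4)) : sl 0 p := by
  cases p with
  | nil => rfl
  | cons a q => exact Or.inl rfl

theorem self_mem_conf {v : Vt} {t : Fin 7} : v ∈ conf v t ↔ t = 0 := by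
  constructor
  · rintro ⟨p, hp, hs⟩
    have h1 : p.reverse = [] := by
      have := congrArg List.length hp
      simp at this
      simp [this]
    have h2 : p = [] := by simpa using h1
    subst h2
    exact hs
  · intro h
    exact ⟨[], by simp, h⟩

theorem rep_zero (i : Fin 4) : rep 0 i = 0 := by
  fin_cases i <;> rfl

/-- decomposition of the sleeping set of a visited vertex -/
theorem conf_visited {t : Fin 7} (ht : t ≠ 0) (v : Vt) : conf v t = ⋃ i : Fin 4, conf (i :: v) (rep t i) := by
  ext x
  simp only [Set.mem_iUnion]
  constructor
  · rintro ⟨p, rfl, hs⟩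
    cases p with
    | nil => exact absurd hs ht
    | cons a q =>
      refine ⟨a, q, by simp, ?_⟩
      rcases hs with hs | hs
      · exact absurd hs ht
      · exact hs
  · rintro ⟨a, q, rfl, hs⟩
    exact ⟨a :: q, by simp, Or.inr hs⟩

/-- decomposition of the sleeping set of an unvisited vertex -/
theorem conf_unvisited (v : Vt) : conf v 0 = {v} ∪ ⋃ i : Fin 4, conf (i :: v) 0 := by
  ext x
  simp only [Set.mem_iUnion, Set.mem_union, Set.mem_singleton_iff]
  constructor
  · rintro ⟨p, rfl, hs⟩
    cases p with
    | nil => left; simp
    | cons a q => exact Or.inr ⟨a, q, by simp, sl_zero q⟩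
  · rintro (rfl | ⟨a, q, rfl, hs⟩)
    · exact ⟨[], by simp, rfl⟩
    · exact ⟨a :: q, by simp, sl_zero _⟩

theorem not_below_cons (i : Fin 4) (v : Vt) : v ∉ below (i :: v) := by
  intro h
  have := length_le_of_below h
  simp at this

theorem tail_not_below {v : Vt} (hv : v ≠ []) : v.tail ∉ below v := by
  intro h
  have h1 := length_le_of_below h
  cases v with
  | nil => exact hv rfl
  | cons a w => simp at h1

theorem tail_not_below_cons {v : Vt} (i : Fin 4) : v.tail ∉ below (i :: v) := by
  intro h
  have h1 := length_le_of_below h
  simp at h1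
  omega

theorem below_disj {i i' : Fin 4} {v x : Vt} (h : x ∈ below (i :: v)) (h' : x ∈ below (i' :: v)) : i = i' := by
  obtain ⟨l, hl⟩ := h
  obtain ⟨l', hl'⟩ := h'
  have h1 : l ++ i :: v = l' ++ i' :: v := hl.trans hl'.symm
  have h2 := List.append_inj_right' h1 (by simp)
  exact (List.cons.inj h2).1

/-- the sleeping set: outside, and the subtrees of the children -/
def Zc (Zo : Set Vt) (v : Vt) (c : Fin 4 → Fin 7) : Set Vt := Zo ∪ ⋃ i : Fin 4, conf (i :: v) (c i)

theorem Zc_mono {Zo : Set Vt} {v : Vt} {c c' : Fin 4 → Fin 7} (h : ∀ i, dm (c i) (c' i)) : Zc Zo v c ⊆ Zc Zo v c' := by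
  rintro x (hx | hx)
  · exact Or.inl hx
  · rw [Set.mem_iUnion] at hx
    obtain ⟨i, hi⟩ := hx
    exact Or.inr (Set.mem_iUnion.2 ⟨i, h i _ hi⟩)

theorem Zc_inter {Zo : Set Vt} {v : Vt} (hZo : ∀ x ∈ Zo, x ∉ below v) (c : Fin 4 → Fin 7) (i : Fin 4) :
    Zc Zo v c ∩ below (i :: v) = conf (i :: v) (c i) := by
  ext x
  constructor
  · rintro ⟨hx | hx, hb⟩
    · exact absurd (below_cons_sub i v hb) (hZo x hx)
    · rw [Set.mem_iUnion] at hx
      obtain ⟨i', hi'⟩ := hx
      have := below_disj hb (conf_sub_below _ _ hi')
      subst this
      exact hi'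
  · intro hx
    exact ⟨Or.inr (Set.mem_iUnion.2 ⟨i, hx⟩), conf_sub_below _ _ hx⟩

theorem Zc_update {Zo : Set Vt} {v : Vt} (hZo : ∀ x ∈ Zo, x ∉ below v) (c : Fin 4 → Fin 7) (i : Fin 4) (u : Fin 7) :
    Zc Zo v c \ below (i :: v) ∪ conf (i :: v) u = Zc Zo v (Function.update c i u) := by
  ext x
  constructor
  · rintro (⟨hx | hx, hb⟩ | hx)
    · exact Or.inl hx
    · rw [Set.mem_iUnion] at hx
      obtain ⟨i', hi'⟩ := hx
      refine Or.inr (Set.mem_iUnion.2 ⟨i', ?_⟩)
      have hne : i' ≠ i := by
        rintro rfl
        exact hb (conf_sub_below _ _ hi')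
      rw [Function.update_of_ne hne]
      exact hi'
    · refine Or.inr (Set.mem_iUnion.2 ⟨i, ?_⟩)
      rw [Function.update_self]
      exact hx
  · rintro (hx | hx)
    · exact Or.inl ⟨Or.inl hx, fun hb => hZo x hx (below_cons_sub i v hb)⟩
    · rw [Set.mem_iUnion] at hx
      obtain ⟨i', hi'⟩ := hx
      by_cases hne : i' = i
      · subst hne
        rw [Function.update_self] at hi'
        exact Or.inr hi'
      · rw [Function.update_of_ne hne] at hi'
        exact Or.inl ⟨Or.inr (Set.mem_iUnion.2 ⟨i', hi'⟩),
          fun hb => hne (below_disj (conf_sub_below _ _ hi') hb)⟩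

theorem sw_image {Zo : Set Vt} {v : Vt} (hZo : ∀ x ∈ Zo, x ∉ below v) (c : Fin 4 → Fin 7) (σ : Equiv.Perm (Fin 4)) :
    sw v σ '' Zc Zo v (c ∘ σ) = Zc Zo v c := by
  have hfix : ∀ x ∈ Zo, sw v σ x = x := by
    intro x hx
    refine sw_fix v σ x (fun l i h => hZo x hx ?_)
    rw [h]
    exact below_cons_sub i v (List.suffix_append _ _)
  ext x
  constructor
  · rintro ⟨y, hy | hy, rfl⟩
    · rw [hfix y hy]
      exact Or.inl hy
    · rw [Set.mem_iUnion] at hy
      obtain ⟨i, p, rfl, hs⟩ := hy
      rw [sw_child]
      exact Or.inr (Set.mem_iUnion.2 ⟨σ i, p, rfl, hs⟩)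
  · rintro (hx | hx)
    · exact ⟨x, Or.inl hx, hfix x hx⟩
    · rw [Set.mem_iUnion] at hx
      obtain ⟨i, p, rfl, hs⟩ := hx
      refine ⟨p.reverse ++ σ.symm i :: v, Or.inr (Set.mem_iUnion.2 ⟨σ.symm i, p, rfl, ?_⟩), ?_⟩
      · simpa using hs
      · rw [sw_child, Equiv.apply_symm_apply]

/-- several more awake frogs -/
theorem FT_append_mono (n K : ℕ) (L O : List Vt) (Z : Set Vt) : FT n K O Z ≤ FT n K (L ++ O) Z := by
  induction L with
  | nil => exact le_refl _
  | cons a L ih => exact ih.trans (F_mono_cons _ _ _ _ rt_nonneg _ _ _)

theorem FT_replicate_le (n K m : ℕ) (v : Vt) (O : List Vt) (Z : Set Vt) :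
    FT n K (List.replicate m v ++ O) Z ≤ FT n K O Z + m * ((((ball n).card : ℝ) + 1) * K) := by
  induction m with
  | zero => simp
  | succ m ih =>
    rw [List.replicate_succ, List.cons_append]
    have h := F_cons_le (stepT n) rt K (ball n) rt_nonneg rt_le_one v (List.replicate m v ++ O) Z
    have h' : FT n K (v :: (List.replicate m v ++ O)) Z ≤
      FT n K (List.replicate m v ++ O) Z + (((ball n).card : ℝ) + 1) * K := h
    push_cast
    linarith

theorem FT_mono_set (n K : ℕ) (O : List Vt) {Z Z' : Set Vt} (h : Z ⊆ Z') : FT n K O Z ≤ FT n K O Z' :=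
  F_mono_set _ _ _ _ rt_nonneg O (fun _ _ hv => h hv)

/-- the average over the moves at an inner vertex of the tree -/
theorem avg_moves {n : ℕ} {v : Vt} (hv : v ≠ []) (hn : v.length ≤ n) (f : Vt → ℝ) :
    (avg fun a : Mv => f (stepT n v a)) = (1 / 5) * f v.tail + (1 / 5) * ∑ i : Fin 4, f (i :: v) := by
  have h1 : ∀ a : Mv, stepT n v a = if a.2 = 0 then v.tail else a.1 :: v := by
    intro a
    unfold stepT
    rw [if_neg (by omega), if_neg hv]
  unfold avg
  have h2 : (∑ a : Mv, f (stepT n v a)) = ∑ i : Fin 4, ∑ b : Fin 5, f (if b = 0 then v.tail else i :: v) := by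
    rw [← Finset.sum_product']
    refine Finset.sum_congr rfl (fun a _ => ?_)
    rw [h1]
  rw [h2]
  have h3 : ∀ i : Fin 4, (∑ b : Fin 5, f (if b = 0 then v.tail else i :: v)) = f v.tail + 4 * f (i :: v) := by
    intro i
    rw [Fin.sum_univ_succ]
    simp [Fin.succ_ne_zero]
  simp_rw [h3]
  rw [Finset.sum_add_distrib, ← Finset.mul_sum]
  have h4 : (Fintype.card Mv : ℝ) = 20 := by
    simp [Mv]
  rw [h4]
  simp only [Finset.sum_const, Finset.card_univ, Fintype.card_fin, nsmul_eq_mul]
  push_cast
  ring

end PkgT

open PkgT

/-- the main claim, by induction on `n + 1 - v.length` -/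
theorem arrive (wt : Fin 7 → ℕ → Fin 7 → ℝ) (W : Wts wt) (n K : ℕ) (v : Vt) (hv : v ≠ []) (hn : v.length ≤ n + 1)
    (t : Fin 7) (O : List Vt) (hO : ∀ x ∈ O, x ∉ below v) (Z : Set Vt) (hp : v.tail ∉ Z) (hZ : Z ∩ below v = conf v t) :
    arr n K v O Z ≤ ∑ j ∈ range 4, ∑ u : Fin 7, wt t j u *
      (FT n K (List.replicate j v.tail ++ O) (Z \ below v ∪ conf v u) + j * rt v.tail) := by
  obtain ⟨d, hd⟩ : ∃ d, d = n + 1 - v.length := ⟨_, rfl⟩
  induction d generalizing v t O Z with
  | zero =>
    have hlen : v.length = n + 1 := by omega
    have hvb : v ∉ ball n := by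
      rw [mem_ball]
      omega
    have h1 : arr n K v O Z = FT n K O Z := by
      unfold arr
      rw [if_neg (fun h => hvb h.1)]
      refine F_dead (stepT n) rt K (ball n) v O Z (fun a => ?_) (fun h => hvb h.1) (rt_ne hv)
      unfold stepT
      rw [if_pos (by omega)]
    rw [h1]
    have h2 : FT n K O Z = ∑ j ∈ range 4, ∑ u : Fin 7, wt t j u * FT n K O Z := by
      simp_rw [← Finset.sum_mul]
      rw [W.sum, one_mul]
    rw [h2]
    refine Finset.sum_le_sum (fun j _ => Finset.sum_le_sum (fun u _ => ?_))
    refine mul_le_mul_of_nonneg_left ?_ (W.nonneg t j u)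
    have h3 : FT n K O Z ≤ FT n K O (Z \ below v ∪ conf v u) := by
      refine F_mono_set _ _ _ _ rt_nonneg O (fun x hx hxZ => ?_)
      refine Or.inl ⟨hxZ, fun hb => ?_⟩
      have := length_le_of_below hb
      rw [mem_ball] at hx
      omega
    have h4 := FT_append_mono n K (List.replicate j v.tail) O (Z \ below v ∪ conf v u)
    have h5 : 0 ≤ (j : ℝ) * rt v.tail := mul_nonneg (Nat.cast_nonneg j) (rt_nonneg _)
    linarith
  | succ d ih =>
    have hlen : v.length ≤ n := by omega
    have hvb : v ∈ ball n := mem_ball.2 hlen
    set Zo : Set Vt := Z \ below v with hZo'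
    have hZo : ∀ x ∈ Zo, x ∉ below v := fun x hx => hx.2
    have hZu : Z = Zo ∪ conf v t := by
      rw [← hZ, hZo']
      ext x
      simp only [Set.mem_union, Set.mem_sdiff, Set.mem_inter_iff]
      tauto
    let C : ℝ := (((ball n).card : ℝ) + 1) * K
    let H : ℕ → ℕ → (Fin 4 → Fin 7) → ℝ := fun m e c =>
      FT n K (List.replicate m v ++ (List.replicate e v.tail ++ O)) (Zc Zo v c) + e * rt v.tail
    let G : ℕ → Fin 7 → ℝ := fun e u => FT n K (List.replicate e v.tail ++ O) (Zo ∪ conf v u) + e * rt v.tail
    have hG : ∀ e (u : Fin 7), u ≠ 0 → G e u =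
        FT n K (List.replicate e v.tail ++ O) (Zc Zo v (rep u)) + e * rt v.tail := by
      intro e u hu
      show FT n K (List.replicate e v.tail ++ O) (Zo ∪ conf v u) + e * rt v.tail = _
      rw [conf_visited hu]
      rfl
    have key := W.cert H G C
      (by
        -- the step
        intro m e c
        have hstep := F_step (stepT n) rt K (ball n) rt_nonneg v
          (List.replicate m v ++ (List.replicate e v.tail ++ O)) (Zc Zo v c)
        have hstep' : FT n K (v :: (List.replicate m v ++ (List.replicate e v.tail ++ O))) (Zc Zo v c) ≤
            avg fun a : Mv => (fun y => rt y + arr n K y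
              (List.replicate m v ++ (List.replicate e v.tail ++ O)) (Zc Zo v c)) (stepT n v a) := hstep
        have hav := avg_moves hv hlen (fun y => rt y + arr n K y
          (List.replicate m v ++ (List.replicate e v.tail ++ O)) (Zc Zo v c))
        rw [hav] at hstep'
        -- to the parent
        have hpar : arr n K v.tail (List.replicate m v ++ (List.replicate e v.tail ++ O)) (Zc Zo v c) =
            H m (e + 1) c - (e + 1) * rt v.tail := by
          have hnot : v.tail ∉ Zc Zo v c := by
            rintro (h | h)
            · exact hp h.1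
            · rw [Set.mem_iUnion] at h
              obtain ⟨i, hi⟩ := h
              exact tail_not_below_cons i (conf_sub_below _ _ hi)
          unfold arr
          rw [if_neg (fun h => hnot h.2)]
          have hperm : (v.tail :: (List.replicate m v ++ (List.replicate e v.tail ++ O))).Perm
              (List.replicate m v ++ (List.replicate (e + 1) v.tail ++ O)) := by
            rw [List.replicate_succ, List.cons_append]
            exact List.perm_middle.symm
          have h1 : FT n K (v.tail :: (List.replicate m v ++ (List.replicate e v.tail ++ O))) (Zc Zo v c) =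
              FT n K (List.replicate m v ++ (List.replicate (e + 1) v.tail ++ O)) (Zc Zo v c) :=
            F_perm _ _ _ _ hperm _
          rw [h1]
          simp only [H]
          push_cast
          ring
        -- to a child
        have hchild : ∀ i : Fin 4, arr n K (i :: v) (List.replicate m v ++ (List.replicate e v.tail ++ O)) (Zc Zo v c) ≤
            (∑ u : Fin 7, ∑ j ∈ range 4, wt (c i) j u * H (m + j) e (Function.update c i u)) - e * rt v.tail := by
          intro i
          have h1 := ih (i :: v) (by simp) (by simp; omega) (c i)
            (List.replicate m v ++ (List.replicate e v.tail ++ O)) (by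
              intro x hx
              rw [List.mem_append, List.mem_append] at hx
              rcases hx with hx | hx | hx
              · rw [List.eq_of_mem_replicate hx]
                exact not_below_cons i v
              · rw [List.eq_of_mem_replicate hx]
                exact tail_not_below_cons i
              · exact fun hb => hO x hx (below_cons_sub i v hb)) (Zc Zo v c) (by
              rw [List.tail_cons]
              rintro (h | h)
              · exact h.2 (List.suffix_refl v)
              · rw [Set.mem_iUnion] at h
                obtain ⟨i', hi'⟩ := h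
                exact not_below_cons i' v (conf_sub_below _ _ hi')) (Zc_inter hZo c i) (by
              rw [List.length_cons]
              omega)
          refine h1.trans (le_of_eq ?_)
          rw [Finset.sum_comm]
          have h2 : ∀ j u, wt (c i) j u * (FT n K (List.replicate j (i :: v).tail ++
              (List.replicate m v ++ (List.replicate e v.tail ++ O))) (Zc Zo v c \ below (i :: v) ∪ conf (i :: v) u) +
              j * rt (i :: v).tail) = wt (c i) j u * H (m + j) e (Function.update c i u) -
              wt (c i) j u * (e * rt v.tail) := by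
            intro j u
            rw [Zc_update hZo, List.tail_cons, rt_ne hv]
            simp only [H]
            rw [← List.append_assoc, List.replicate_append_replicate, add_comm j m]
            ring
          simp_rw [h2, Finset.sum_sub_distrib, ← Finset.sum_mul]
          have h3 : ∑ u : Fin 7, ∑ j ∈ range 4, wt (c i) j u = 1 := by
            rw [Finset.sum_comm]
            exact W.sum (c i)
          rw [h3, one_mul]
        have hsum : ∑ i : Fin 4, (rt (i :: v) + arr n K (i :: v)
            (List.replicate m v ++ (List.replicate e v.tail ++ O)) (Zc Zo v c)) ≤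
            ∑ i : Fin 4, ((∑ u : Fin 7, ∑ j ∈ range 4, wt (c i) j u * H (m + j) e (Function.update c i u)) -
              e * rt v.tail) := by
          refine Finset.sum_le_sum (fun i _ => ?_)
          rw [rt_ne (by simp), zero_add]
          exact hchild i
        rw [Finset.sum_sub_distrib] at hsum
        simp only [Finset.sum_const, Finset.card_univ, Fintype.card_fin, nsmul_eq_mul] at hsum
        have hH : H (m + 1) e c = FT n K (v :: (List.replicate m v ++ (List.replicate e v.tail ++ O))) (Zc Zo v c) +
            e * rt v.tail := by
          simp only [H]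
          rw [List.replicate_succ, List.cons_append]
        rw [hH]
        rw [hpar] at hstep'
        push_cast at hsum hstep' ⊢
        linarith)
      (by
        intro e c u hu hdm
        rw [hG e u hu]
        simp only [H, List.replicate_zero, List.nil_append]
        have := FT_mono_set n K (List.replicate e v.tail ++ O) (Zc_mono (Zo := Zo) (v := v) hdm)
        linarith)
      (by
        intro m e c σ
        simp only [H]
        congr 1
        rw [← sw_image hZo c σ]
        refine (FT_sw n K v σ _ ?_ _).symm
        intro x hx l i hxl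
        rw [List.mem_append, List.mem_append] at hx
        have hb : x ∈ below (i :: v) := by
          rw [hxl]
          exact List.suffix_append _ _
        rcases hx with hx | hx | hx
        · rw [List.eq_of_mem_replicate hx] at hb
          exact not_below_cons i v hb
        · rw [List.eq_of_mem_replicate hx] at hb
          exact tail_not_below_cons i hb
        · exact hO x hx (below_cons_sub i v hb))
      (by
        intro m e c
        simp only [H]
        rw [List.replicate_succ, List.cons_append]
        have := F_mono_cons (stepT n) rt K (ball n) rt_nonneg v (List.replicate m v ++ (List.replicate e v.tail ++ O))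
          (Zc Zo v c)
        have h' : FT n K (List.replicate m v ++ (List.replicate e v.tail ++ O)) (Zc Zo v c) ≤
          FT n K (v :: (List.replicate m v ++ (List.replicate e v.tail ++ O))) (Zc Zo v c) := this
        linarith)
      (by
        intro m e c
        simp only [H]
        rw [List.replicate_succ, List.replicate_succ, List.cons_append, List.cons_append]
        have := F_sub (stepT n) rt K (ball n) rt_nonneg v v (List.replicate m v ++ (List.replicate e v.tail ++ O))
          (Zc Zo v c)
        have h' : FT n K (v :: v :: (List.replicate m v ++ (List.replicate e v.tail ++ O))) (Zc Zo v c) +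
          FT n K (List.replicate m v ++ (List.replicate e v.tail ++ O)) (Zc Zo v c) ≤
          FT n K (v :: (List.replicate m v ++ (List.replicate e v.tail ++ O))) (Zc Zo v c) +
          FT n K (v :: (List.replicate m v ++ (List.replicate e v.tail ++ O))) (Zc Zo v c) := this
        linarith)
      (by
        intro m e c i u u' hdm
        simp only [H]
        have hm : Zc Zo v (Function.update c i u) ⊆ Zc Zo v (Function.update c i u') := by
          refine Zc_mono (fun i' => ?_)
          by_cases h : i' = i
          · subst h
            rw [Function.update_self, Function.update_self]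
            exact hdm
          · rw [Function.update_of_ne h, Function.update_of_ne h]
            exact fun w => subset_rfl
        have := FT_mono_set n K (List.replicate m v ++ (List.replicate e v.tail ++ O)) hm
        linarith)
      (by
        intro e u
        simp only [G]
        rw [List.replicate_succ, List.cons_append]
        have := F_mono_cons (stepT n) rt K (ball n) rt_nonneg v.tail (List.replicate e v.tail ++ O) (Zo ∪ conf v u)
        have h' : FT n K (List.replicate e v.tail ++ O) (Zo ∪ conf v u) ≤
          FT n K (v.tail :: (List.replicate e v.tail ++ O)) (Zo ∪ conf v u) := this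
        have h2 := rt_nonneg v.tail
        push_cast
        linarith)
      (by
        intro e u
        simp only [G]
        rw [List.replicate_succ, List.replicate_succ, List.cons_append, List.cons_append]
        have := F_sub (stepT n) rt K (ball n) rt_nonneg v.tail v.tail (List.replicate e v.tail ++ O) (Zo ∪ conf v u)
        have h' : FT n K (v.tail :: v.tail :: (List.replicate e v.tail ++ O)) (Zo ∪ conf v u) +
          FT n K (List.replicate e v.tail ++ O) (Zo ∪ conf v u) ≤
          FT n K (v.tail :: (List.replicate e v.tail ++ O)) (Zo ∪ conf v u) +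
          FT n K (v.tail :: (List.replicate e v.tail ++ O)) (Zo ∪ conf v u) := this
        push_cast
        linarith)
      (by
        intro e u u' hu hu' hdm
        simp only [G]
        have := FT_mono_set n K (List.replicate e v.tail ++ O)
          (Set.union_subset_union_right Zo (hdm v))
        linarith)
      (by
        intro m e c u
        simp only [H, G]
        have h1 := FT_replicate_le n K m v (List.replicate e v.tail ++ O) (Zc Zo v c)
        have h2 := F_le_set (stepT n) rt K (ball n) rt_nonneg rt_le_one (List.replicate e v.tail ++ O) (Zc Zo v c)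
          (Zo ∪ conf v u)
        have h3 : FT n K (List.replicate e v.tail ++ O) (Zc Zo v c) ≤
          FT n K (List.replicate e v.tail ++ O) (Zo ∪ conf v u) + ((ball n).card : ℝ) * K := h2
        have h4 : (0 : ℝ) ≤ K := Nat.cast_nonneg K
        simp only [C]
        nlinarith)
    by_cases ht : t = 0
    · subst ht
      have hvZ : v ∈ Z := by
        rw [hZu]
        exact Or.inr (self_mem_conf.2 rfl)
      have hset : Z \ {v} = Zc Zo v (fun _ => 0) := by
        rw [hZu, conf_unvisited]
        ext x
        simp only [Zc, Set.mem_sdiff, Set.mem_union, Set.mem_singleton_iff]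
        constructor
        · rintro ⟨h | h | h, hne⟩
          · exact Or.inl h
          · exact absurd h hne
          · exact Or.inr h
        · rintro (h | h)
          · refine ⟨Or.inl h, ?_⟩
            rintro rfl
            exact hZo x h (List.suffix_refl _)
          · refine ⟨Or.inr (Or.inr h), ?_⟩
            rintro rfl
            rw [Set.mem_iUnion] at h
            obtain ⟨i, hi⟩ := h
            exact not_below_cons i x (conf_sub_below _ _ hi)
      have harr : arr n K v O Z = H 2 0 (fun _ => 0) := by
        unfold arr
        rw [if_pos ⟨hvb, hvZ⟩, hset]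
        simp [H, List.replicate_succ]
      rw [harr]
      exact key.1
    · have hvZ : v ∉ Z := by
        intro h
        have : v ∈ Z ∩ below v := ⟨h, List.suffix_refl v⟩
        rw [hZ] at this
        exact ht (self_mem_conf.1 this)
      have hset : Z = Zc Zo v (rep t) := by
        rw [hZu, conf_visited ht]
        rfl
      have harr : arr n K v O Z = H 1 0 (rep t) := by
        unfold arr
        rw [if_neg (fun h => hvZ h.2)]
        simp only [H]
        rw [← hset]
        simp [List.replicate_succ]
      rw [harr]
      exact key.2 t ht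

end Pool.Agent.U140.FM
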